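import Mathlib
import Pool.Agent.Q112.LeonardTriple

/-!
# A Leonard triple that does not come from the equitable basis of `sl₂`

`A = diag(1, 0, -1)`, `A'` is the matrix with rows `(1, 2, 0), (2, 0, 2), (0, 2, -1)` and
`A'' = A A' + A' A`.
-/

namespace Pool.Agent.Results.MP_44ae8d_al.TripleNotEquitable

open Pool.Agent.Q112.Leo

/-- Over every field `K` of characteristic zero there is a Leonard triple `A, A', A''` of diameter
two such that for no irreducible `sl₂`-module structure on `K³` the operators `A`, `A'`, `A''` are
linear combinations of `I, x, y, xy`, of `I, y, z, yz` and of `I, z, x, zx`, respectively. -/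
theorem result (K : Type) [Field K] [CharZero K] : ∃ A A' A'' : Module.End K (Fin 3 → K),
    IsLeonardTriple 2 A A' A'' ∧ IsLeonardPair 2 A A' ∧ HasBetaTwo 2 A A' ∧
      ∀ x y z : Module.End K (Fin 3 → K), IsEquitable x y z → IsIrreducible x y z →
        ¬ (A ∈ Submodule.span K {1, x, y, x * y} ∧ A' ∈ Submodule.span K {1, y, z, y * z} ∧
          A'' ∈ Submodule.span K {1, z, x, z * x}) :=
  main3 K

end Pool.Agent.Results.MP_44ae8d_al.TripleNotEquitable
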